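import Pool.Agent.TH694.GP.Defs

/-!
# Globally rigid pinning: bodies and separated sets
(job X1 of helper694, written by helper811)
-/

set_option autoImplicit false

namespace Pool.Agent.TH694.GP

open Pool.Agent.H598R2.Cnt

variable {V : Type*} [DecidableEq V]

/-- two different bodies share at most one vertex -/
theorem Bodies.inter_le {U : Finset V} {Γ 𝓑 : Finset (Finset V)} (hB : Bodies U Γ 𝓑) {B B' : Finset V}
    (h : B ∈ 𝓑) (h' : B' ∈ 𝓑) (hne : B ≠ B') : (B ∩ B').card ≤ 1 := by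
  have h1 := hB.cnt {B, B'} (by
    intro C hC
    rw [Finset.mem_insert, Finset.mem_singleton] at hC
    rcases hC with rfl | rfl
    · exact h
    · exact h') ⟨B, Finset.mem_insert_self _ _⟩
  rw [Finset.sum_pair hne] at h1
  have h2 : ({B, B'} : Finset (Finset V)).biUnion id = B ∪ B' := by
    rw [Finset.biUnion_insert, Finset.singleton_biUnion]
    rfl
  rw [h2] at h1
  have h3 := Finset.card_union_add_card_inter B B'
  have h4 := hB.two B h
  have h5 := hB.two B' h'
  omega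

/-- a body which meets `X` and contains at most one neighbour of `X` is inside `X ∪ Nb X` -/
theorem Bodies.sub_of_nb_le {U : Finset V} {Γ 𝓑 : Finset (Finset V)} (hB : Bodies U Γ 𝓑)
    {X B : Finset V} (hX : X ⊆ U) (h : B ∈ 𝓑) (hm : (B ∩ X).Nonempty)
    (h1 : (Nb U Γ X ∩ B).card ≤ 1) : B ⊆ X ∪ Nb U Γ X := by
  by_contra hc
  obtain ⟨b, hb⟩ := hm
  rw [Finset.mem_inter] at hb
  obtain ⟨a, ha, c, hc', haB, hcB, hac⟩ := hB.conn B h (X ∪ Nb U Γ X) (U \ X) (by
    intro z hz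
    by_cases hzX : z ∈ X
    · exact Finset.mem_union_left _ (Finset.mem_union_left _ hzX)
    · exact Finset.mem_union_right _ (Finset.mem_sdiff.2 ⟨hB.subU B h hz, hzX⟩)) hc (by
    intro h2
    exact (Finset.mem_sdiff.1 (h2 hb.1)).2 hb.2) (by
    refine (Finset.card_le_card ?_).trans h1
    intro z hz
    rw [Finset.mem_inter, Finset.mem_inter, Finset.mem_sdiff, Finset.mem_union] at hz
    rw [Finset.mem_inter]
    exact ⟨hz.1.1.resolve_left hz.1.2.2, hz.2⟩)
  rw [Finset.mem_sdiff, Finset.mem_union, Finset.mem_sdiff] at ha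
  rw [Finset.mem_sdiff, Finset.mem_sdiff, Finset.mem_union, not_or] at hc'
  have haX : a ∈ X := by
    rcases ha.1 with h2 | h2
    · exact h2
    · exact absurd ⟨(mem_Nb.1 h2).1, (mem_Nb.1 h2).2.1⟩ ha.2
  apply hc'.2.2
  rw [mem_Nb]
  exact ⟨hc'.1.1, hc'.1.2, a, haX, by rwa [Finset.pair_comm]⟩

theorem nb_two {U : Finset V} {Γ 𝓑 : Finset (Finset V)} (hB : Bodies U Γ 𝓑) {X : Finset V}
    (hX : Sepd U Γ X) (hV : Val 𝓑 X) : (Nb U Γ X).card = 2 := by
  obtain ⟨hXU, hXne, hX2, -⟩ := hX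
  by_contra hne
  have h1 : (Nb U Γ X).card ≤ 1 := by omega
  have h2 := hV X (le_refl _) hXne
  set 𝒞 := 𝓑.filter (fun B => (B ∩ X).Nonempty) with h𝒞
  have h3 : 𝒞.Nonempty := by
    rw [Finset.nonempty_iff_ne_empty]
    intro h4
    unfold bb at h2
    rw [← h𝒞, h4, Finset.sum_empty] at h2
    omega
  have h4 := hB.cnt 𝒞 (Finset.filter_subset _ _) h3
  have h5 : 𝒞.biUnion id ⊆ X ∪ Nb U Γ X := by
    rw [Finset.biUnion_subset]
    intro B hBC
    obtain ⟨hB1, hB2⟩ := Finset.mem_filter.1 hBC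
    exact hB.sub_of_nb_le hXU hB1 hB2
      ((Finset.card_le_card Finset.inter_subset_left).trans h1)
  have h6 := Finset.card_le_card h5
  have h7 := Finset.card_union_le X (Nb U Γ X)
  have h8 : bb 𝓑 X = ∑ B ∈ 𝒞, (2 * B.card - 3) := rfl
  omega

/-- a body which crosses `X` contains everything -/
theorem crossing {U : Finset V} {Γ 𝓑 : Finset (Finset V)} (hB : Bodies U Γ 𝓑) {X B : Finset V}
    (hX : Sepd U Γ X) (hV : Val 𝓑 X) (h : B ∈ 𝓑) (hm : (B ∩ X).Nonempty)
    (hc : ¬ B ⊆ X ∪ Nb U Γ X) :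
    X ∪ Nb U Γ X ⊆ B ∧ (∀ B' ∈ 𝓑, (B' ∩ X).Nonempty → B' = B) ∧
      ∀ s ∈ Nb U Γ X, ∃ w ∈ U \ (X ∪ Nb U Γ X), {s, w} ∈ Γ := by
  have h2 := nb_two hB hX hV
  obtain ⟨hXU, hXne, hX2, -⟩ := hX
  -- `B` contains the neighbours
  have hNB : Nb U Γ X ⊆ B := by
    have h3 : ¬ (Nb U Γ X ∩ B).card ≤ 1 := fun h4 => hc (hB.sub_of_nb_le hXU h hm h4)
    have h4 : Nb U Γ X ∩ B = Nb U Γ X :=
      Finset.eq_of_subset_of_card_le Finset.inter_subset_left (by omega)
    rw [← h4]
    exact Finset.inter_subset_right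
  -- the other bodies
  have hoth : ∀ B' ∈ 𝓑, B' ≠ B → (B' ∩ X).Nonempty → B' ⊆ X ∪ Nb U Γ X := by
    intro B' hB' hne hm'
    refine hB.sub_of_nb_le hXU hB' hm' ?_
    refine (Finset.card_le_card ?_).trans (hB.inter_le h hB' (Ne.symm hne))
    exact Finset.inter_subset_inter_right hNB
  have hXB : X ⊆ B := by
    by_contra hXB
    have hYne : (X \ B).Nonempty := Finset.sdiff_nonempty.2 hXB
    have h3 := hV (X \ B) Finset.sdiff_subset hYne
    set 𝒞 := 𝓑.filter (fun B' => (B' ∩ (X \ B)).Nonempty) with h𝒞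
    have hB𝒞 : B ∉ 𝒞 := by
      intro h4
      obtain ⟨z, hz⟩ := (Finset.mem_filter.1 h4).2
      rw [Finset.mem_inter, Finset.mem_sdiff] at hz
      exact hz.2.2 hz.1
    have h4 := hB.cnt (insert B 𝒞) (by
      intro C hC
      rcases Finset.mem_insert.1 hC with rfl | hC
      · exact h
      · exact Finset.filter_subset _ _ hC) ⟨B, Finset.mem_insert_self _ _⟩
    rw [Finset.sum_insert hB𝒞] at h4
    have h5 : (insert B 𝒞).biUnion id ⊆ B ∪ (X \ B) := by
      rw [Finset.biUnion_subset]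
      intro C hC
      rcases Finset.mem_insert.1 hC with rfl | hC
      · exact Finset.subset_union_left
      · obtain ⟨hC1, hC2⟩ := Finset.mem_filter.1 hC
        have hCne : C ≠ B := fun h6 => hB𝒞 (h6 ▸ hC)
        have h6 := hoth C hC1 hCne (hC2.mono
          (Finset.inter_subset_inter_left Finset.sdiff_subset))
        intro z hz
        by_cases hzB : z ∈ B
        · exact Finset.mem_union_left _ hzB
        · rcases Finset.mem_union.1 (h6 hz) with h7 | h7
          · exact Finset.mem_union_right _ (Finset.mem_sdiff.2 ⟨h7, hzB⟩)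
          · exact absurd (hNB h7) hzB
    have h6 := Finset.card_le_card h5
    have h7 := Finset.card_union_le B (X \ B)
    have h8 : bb 𝓑 (X \ B) = ∑ B ∈ 𝒞, (2 * B.card - 3) := rfl
    have h9 := hB.two B h
    omega
  have hall : X ∪ Nb U Γ X ⊆ B := Finset.union_subset hXB hNB
  refine ⟨hall, ?_, ?_⟩
  · intro B' hB' hm'
    by_contra hne
    have h3 := (hoth B' hB' hne hm').trans hall
    have h4 := hB.inter_le hB' h hne
    rw [Finset.inter_eq_left.2 h3] at h4
    have h5 := hB.two B' hB'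
    omega
  · intro s hs
    obtain ⟨b, hb⟩ := hm
    rw [Finset.mem_inter] at hb
    have hs' := mem_Nb.1 hs
    obtain ⟨a, ha, c, hc', -, -, hac⟩ := hB.conn B h (X ∪ Nb U Γ X) (U \ (insert s X)) (by
      intro z hz
      by_cases hzX : z ∈ insert s X
      · refine Finset.mem_union_left _ ?_
        rcases Finset.mem_insert.1 hzX with rfl | hzX
        · exact Finset.mem_union_right _ hs
        · exact Finset.mem_union_left _ hzX
      · exact Finset.mem_union_right _ (Finset.mem_sdiff.2 ⟨hB.subU B h hz, hzX⟩)) hc (by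
      intro h3
      exact (Finset.mem_sdiff.1 (h3 hb.1)).2 (Finset.mem_insert_of_mem hb.2)) (by
      have h3 : (X ∪ Nb U Γ X) ∩ (U \ (insert s X)) ∩ B ⊆ (Nb U Γ X).erase s := by
        intro z hz
        rw [Finset.mem_inter, Finset.mem_inter, Finset.mem_sdiff, Finset.mem_union,
          Finset.mem_insert, not_or] at hz
        rw [Finset.mem_erase]
        exact ⟨hz.1.2.2.1, hz.1.1.resolve_left hz.1.2.2.2⟩
      have h4 := Finset.card_le_card h3
      rw [Finset.card_erase_of_mem hs] at h4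
      omega)
    rw [Finset.mem_sdiff, Finset.mem_union, Finset.mem_sdiff] at ha
    rw [Finset.mem_sdiff, Finset.mem_sdiff, Finset.mem_insert, not_or] at hc'
    have hcN : c ∉ X ∪ Nb U Γ X := hc'.2
    have haU : a ∈ U := by
      rcases ha.1 with h3 | h3
      · exact hXU h3
      · exact (mem_Nb.1 h3).1
    have haX : a ∉ X := by
      intro haX
      apply hcN
      refine Finset.mem_union_right _ (mem_Nb.2 ⟨hc'.1.1, hc'.1.2.2, a, haX, ?_⟩)
      rwa [Finset.pair_comm]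
    have has : a = s := by
      by_contra hne
      apply ha.2
      refine ⟨haU, ?_⟩
      rw [Finset.mem_insert]
      exact fun h3 => h3.elim hne haX
    refine ⟨c, Finset.mem_sdiff.2 ⟨hc'.1.1, hcN⟩, ?_⟩
    rw [← has]
    exact hac

/-- exchange inside a crossing body keeps validity -/
theorem val_swapB {U : Finset V} {𝓑 : Finset (Finset V)} {P X B : Finset V}
    (hone : ∀ B' ∈ 𝓑, (B' ∩ X).Nonempty → B' = B) (hXB : X ⊆ B) {ρ r : V}
    (hρ : ρ ∈ X) (hρP : ρ ∈ P) (hr : r ∈ X) (hrP : r ∉ P) (hrU : r ∈ U) (hV : Val 𝓑 (U \ P)) :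
    Val 𝓑 (U \ insert r (P.erase ρ)) := by
  intro Z hZ hZne
  have hrZ : r ∉ Z := fun h => (Finset.mem_sdiff.1 (hZ h)).2 (Finset.mem_insert_self _ _)
  have hZP : ∀ z ∈ Z, z ≠ ρ → z ∈ U \ P := by
    intro z hz hne
    obtain ⟨h1, h2⟩ := Finset.mem_sdiff.1 (hZ hz)
    refine Finset.mem_sdiff.2 ⟨h1, fun h3 => h2 ?_⟩
    exact Finset.mem_insert_of_mem (Finset.mem_erase.2 ⟨hne, h3⟩)
  by_cases hρZ : ρ ∈ Z
  · have hrE : r ∉ Z.erase ρ := fun h => hrZ (Finset.mem_of_mem_erase h)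
    have h1 := hV (insert r (Z.erase ρ)) (by
      intro z hz
      rcases Finset.mem_insert.1 hz with rfl | hz
      · exact Finset.mem_sdiff.2 ⟨hrU, hrP⟩
      · obtain ⟨h2, h3⟩ := Finset.mem_erase.1 hz
        exact hZP z h3 h2) ⟨r, Finset.mem_insert_self _ _⟩
    rw [Finset.card_insert_of_notMem hrE, Finset.card_erase_of_mem hρZ] at h1
    have h2 : bb 𝓑 (insert r (Z.erase ρ)) = bb 𝓑 Z := by
      unfold bb
      refine Finset.sum_congr ?_ fun _ _ => rfl
      refine Finset.filter_congr fun B' hB' => ?_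
      constructor
      · rintro ⟨z, hz⟩
        obtain ⟨hz1, hz2⟩ := Finset.mem_inter.1 hz
        rcases Finset.mem_insert.1 hz2 with rfl | hz2
        · have h3 := hone B' hB' ⟨z, Finset.mem_inter.2 ⟨hz1, hr⟩⟩
          exact ⟨ρ, Finset.mem_inter.2 ⟨h3 ▸ hXB hρ, hρZ⟩⟩
        · exact ⟨z, Finset.mem_inter.2 ⟨hz1, Finset.mem_of_mem_erase hz2⟩⟩
      · rintro ⟨z, hz⟩
        obtain ⟨hz1, hz2⟩ := Finset.mem_inter.1 hz
        by_cases hzρ : z = ρ
        · subst hzρ
          have h3 := hone B' hB' ⟨z, Finset.mem_inter.2 ⟨hz1, hρ⟩⟩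
          exact ⟨r, Finset.mem_inter.2 ⟨h3 ▸ hXB hr, Finset.mem_insert_self _ _⟩⟩
        · exact ⟨z, Finset.mem_inter.2 ⟨hz1,
            Finset.mem_insert_of_mem (Finset.mem_erase.2 ⟨hzρ, hz2⟩)⟩⟩
    rw [h2] at h1
    have h3 := Finset.card_pos.2 hZne
    omega
  · refine hV Z (fun z hz => hZP z hz ?_) hZne
    rintro rfl
    exact hρZ hz

end Pool.Agent.TH694.GP
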